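import Pool.Agent.N926.Qf.I
import Pool.Agent.N926.Sup2.Cg

set_option autoImplicit false

namespace Pool.Agent.Results.MP_5b0587_nt.AllThree

open Finset

/-- `r ≡ s (mod p^m)`: `r - s = p^m u` with `u` a rational whose denominator is prime to `p` -/
def Congr (p m : ℕ) (r s : ℚ) : Prop := ∃ u : ℚ, ¬ p ∣ u.den ∧ r - s = (p : ℚ) ^ m * u

/-- the generalised binomial coefficient `a(a-1)...(a-k+1)/k!` -/
def gbin (a : ℚ) (k : ℕ) : ℚ := (∏ j ∈ range k, (a - j)) / (k.factorial : ℚ)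

/-- `∑_{k=0}^{p-1} binom(-1/4,k)^2 4^k` -/
def S1 (p : ℕ) : ℚ := ∑ k ∈ range p, gbin (-1/4) k ^ 2 * 4 ^ k

/-- `∑_{k=0}^{p-1} binom(-1/4,k) binom(-1/2,k) (-8)^k` -/
def S2 (p : ℕ) : ℚ := ∑ k ∈ range p, gbin (-1/4) k * gbin (-1/2) k * (-8) ^ k

/-- `∑_{k=0}^{p-1} binom(-1/4,k)^2 4^(-k)` -/
def S3 (p : ℕ) : ℚ := ∑ k ∈ range p, gbin (-1/4) k ^ 2 / 4 ^ k

open Pool.Agent.N926.F54 Pool.Agent.N926.F37 Pool.Agent.N926.Sup2 Pool.Agent.N926.Sup Pool.Agent.N926.Qd Pool.Agent.N926.Qe Pool.Agent.N926.Qf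

theorem gbin_eq (a : ℚ) (k : ℕ) : gbin a k = gb a k := by
  unfold gbin gb
  rw [prod_div_distrib]
  congr 1
  rw [← Finset.prod_range_add_one_eq_factorial]
  push_cast
  rfl

theorem half_eq (k : ℕ) : gb (-1/2) k * (-8) ^ k = 2 ^ k * (((2*k).choose k : ℕ) : ℚ) := by
  induction k with
  | zero => simp [gb]
  | succ k ih =>
    have h1 := Nat.succ_mul_centralBinom_succ k
    rw [Nat.centralBinom_eq_two_mul_choose, Nat.centralBinom_eq_two_mul_choose] at h1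
    have h2 : ((k:ℚ)+1) * (((2*(k+1)).choose (k+1) : ℕ) : ℚ) = 2*(2*k+1) * (((2*k).choose k : ℕ) : ℚ) := by exact_mod_cast h1
    have hk : (k:ℚ)+1 ≠ 0 := by positivity
    rw [gb_succ]
    refine mul_left_cancel₀ hk ?_
    have e : ((k:ℚ)+1) * (gb (-1/2) k * ((-1/2 - (k:ℚ))/((k:ℚ)+1)) * (-8)^(k+1)) = 4*(2*k+1) * (gb (-1/2) k * (-8)^k) := by
      rw [pow_succ]
      field_simp
      ring
    rw [e, ih, pow_succ]
    linear_combination (-(2*2^k : ℚ)) * h2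

theorem S1_eq (p : ℕ) : S1 p = ∑ k ∈ range p, gb (-1/4) k ^ 2 * 4 ^ k := by
  unfold S1
  exact sum_congr rfl fun k _ => by rw [gbin_eq]

theorem S2_eq (p : ℕ) : S2 p = ∑ k ∈ range p, gb (-1/4) k * (2 ^ k * (((2*k).choose k : ℕ) : ℚ)) := by
  unfold S2
  exact sum_congr rfl fun k _ => by rw [gbin_eq, gbin_eq, mul_assoc, half_eq]

theorem S3_eq (p : ℕ) : S3 p = ∑ k ∈ range p, gb (-1/4) k ^ 2 * (1/4) ^ k := by
  unfold S3
  exact sum_congr rfl fun k _ => by rw [gbin_eq, one_div, inv_pow, div_eq_mul_inv]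

theorem eps_zpow {A : ℤ} (h : A % 2 = 1) : (-1:ℚ) ^ ((A-1)/2) = eps A := by
  unfold eps
  rcases (show A % 4 = 1 ∨ A % 4 = 3 by omega) with h4 | h4
  · rw [if_pos h4]
    exact Even.neg_one_zpow ⟨(A-1)/4, by omega⟩
  · rw [if_neg (by omega)]
    exact Odd.neg_one_zpow ⟨(A-3)/4, by omega⟩

/-- **Q1** holds for every prime `p ≡ 1 (mod 3)` and every representation `p = A^2 + 3 B^2`. -/
theorem result (p : ℕ) [Fact p.Prime] (hp3 : p % 3 = 1) :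
    (p % 12 = 1 ∨ p % 12 = 7) ∧ (∃ A B : ℤ, (p : ℤ) = A ^ 2 + 3 * B ^ 2) ∧
    ∀ A B : ℤ, (p : ℤ) = A ^ 2 + 3 * B ^ 2 →
      (p % 12 = 1 → A % 2 = 1 ∧
        Congr p 2 (S1 p) ((-1 : ℚ) ^ (((p : ℤ) - 1) / 4 + (A - 1) / 2) * (2 * (A : ℚ) - p / (2 * (A : ℚ)))) ∧
        Congr p 2 (S2 p) ((-1 : ℚ) ^ (((p : ℤ) - 1) / 4 + (A - 1) / 2) * (2 * (A : ℚ) - p / (2 * (A : ℚ)))) ∧
        Congr p 2 (S3 p) ((-1 : ℚ) ^ ((A - 1) / 2) * (2 * (A : ℚ) - p / (2 * (A : ℚ))))) ∧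
      (p % 12 = 7 → B % 2 = 1 ∧
        Congr p 2 (S1 p) ((-1 : ℚ) ^ (((p : ℤ) + 1) / 4 + (B - 1) / 2) * (6 * (B : ℚ) - p / (2 * (B : ℚ)))) ∧
        Congr p 2 (S2 p) ((-1 : ℚ) ^ (((p : ℤ) + 1) / 4 + (B - 1) / 2) * (6 * (B : ℚ) - p / (2 * (B : ℚ)))) ∧
        Congr p 2 (S3 p) ((-1 : ℚ) ^ ((B - 1) / 2) * (3 * (B : ℚ) - p / (4 * (B : ℚ))))) := by
  have hp : p.Prime := Fact.out
  have hp2 := hp.two_le
  have hodd : p % 2 = 1 := by
    rcases hp.eq_two_or_odd with h | h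
    · omega
    · exact h
  have p3 : 3 < p := by omega
  obtain ⟨i, hi⟩ : ∃ i, p = 6*i+1 := ⟨p/6, by omega⟩
  have i1 : 1 ≤ i := by omega
  have n1 : (-1:ℚ) ≠ 0 := by norm_num
  refine ⟨by omega, ?_, ?_⟩
  · obtain ⟨X, Y, -, hXY⟩ := rep p hi i1
    exact ⟨X, Y, hXY.symm⟩
  · intro A B hAB
    obtain ⟨a, ha⟩ | ⟨a, ha⟩ := Int.even_or_odd A
    · -- `A` even
      have hA2 : A^2 = 4*a^2 := by rw [ha]; ring
      have hB : B % 2 = 1 := by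
        by_contra hc
        obtain ⟨b, hb⟩ : ∃ b, B = 2*b := ⟨B/2, by omega⟩
        have : (p:ℤ) = 4*(a^2+3*b^2) := by rw [hAB, ha, hb]; ring
        omega
      have hp12 : p % 12 = 7 := by
        obtain ⟨b, hb⟩ : ∃ b, B = 2*b+1 := ⟨B/2, by omega⟩
        have : (p:ℤ) = 4*(a^2+3*(b^2+b)) + 3 := by rw [hAB, ha, hb]; ring
        omega
      refine ⟨fun h => absurd h (by omega), fun _ => ⟨hB, ?_⟩⟩
      obtain ⟨j, hj⟩ : ∃ j, 3*i = 2*j+1 := ⟨(3*i)/2, by omega⟩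
      obtain ⟨r1, r2, r3⟩ := all_odd p3 hi i1 (by omega) hj hAB.symm hB
      have e1 : (-1 : ℚ) ^ (((p : ℤ) + 1) / 4 + (B - 1) / 2) = (-1)^(j+1) * eps B := by
        rw [zpow_add₀ n1, eps_zpow hB]
        congr 1
        have : ((p:ℤ)+1)/4 = ((j+1 : ℕ) : ℤ) := by push_cast; omega
        rw [this, zpow_natCast]
      rw [e1, eps_zpow hB, S1_eq, S2_eq, S3_eq]
      refine ⟨congr_of_Dv (Dv_eq ?_ r1), congr_of_Dv (Dv_eq ?_ r2), congr_of_Dv r3⟩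
      · ring
      · ring
    · -- `A` odd
      have hA : A % 2 = 1 := by omega
      have hp12 : p % 12 = 1 := by
        by_contra hc
        have h7 : p % 12 = 7 := by omega
        have hB : B % 2 = 0 := by
          by_contra hc
          obtain ⟨b, hb⟩ : ∃ b, B = 2*b+1 := ⟨B/2, by omega⟩
          have : (p:ℤ) = 4*(a^2+a+3*(b^2+b)+1) := by rw [hAB, ha, hb]; ring
          omega
        obtain ⟨b, hb⟩ : ∃ b, B = 2*b := ⟨B/2, by omega⟩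
        have : (p:ℤ) = 4*(a^2+a+3*b^2)+1 := by rw [hAB, ha, hb]; ring
        omega
      refine ⟨fun _ => ⟨hA, ?_⟩, fun h => absurd h (by omega)⟩
      obtain ⟨j, hj⟩ : ∃ j, 3*i = 2*j := ⟨(3*i)/2, by omega⟩
      obtain ⟨r1, r2, r3⟩ := all_even p3 hi i1 (by omega) hj hAB.symm hA
      have e1 : (-1 : ℚ) ^ (((p : ℤ) - 1) / 4 + (A - 1) / 2) = (-1)^j * eps A := by
        rw [zpow_add₀ n1, eps_zpow hA]
        congr 1
        have : ((p:ℤ)-1)/4 = (j : ℤ) := by omega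
        rw [this, zpow_natCast]
      rw [e1, eps_zpow hA, S1_eq, S2_eq, S3_eq]
      refine ⟨congr_of_Dv (Dv_eq ?_ r1), congr_of_Dv (Dv_eq ?_ r2), congr_of_Dv r3⟩
      · ring
      · ring

end Pool.Agent.Results.MP_5b0587_nt.AllThree
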